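import Mathlib
import Pool.Agent.Run7.h506.HZc

set_option autoImplicit false

namespace Pool.Agent.Results.MP_f77893_an.HighOrderZero

/-- Let `ℓ ≥ 2`, `m ≥ 1`, and let `u` be a harmonic homogeneous polynomial of degree `ℓ` in three
variables which vanishes to order at least `m` at some point `p` of the unit sphere, that is, the
homogeneous parts of degree less than `m` of the recentred polynomial `y ↦ u (p + y)` vanish.
Then the nonvanishing set of `u` on the unit sphere has at most `2 ℓ (ℓ - m + 1)` components. -/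
theorem result :
    ∀ ℓ m : ℕ, 2 ≤ ℓ → 1 ≤ m → ∀ u : MvPolynomial (Fin 3) ℝ, u.IsHomogeneous ℓ →
      ∑ i : Fin 3, MvPolynomial.pderiv i (MvPolynomial.pderiv i u) = 0 →
      (∃ p : Fin 3 → ℝ, ∑ i : Fin 3, p i ^ 2 = 1 ∧
        ∀ k < m, MvPolynomial.homogeneousComponent k
          (MvPolynomial.aeval (fun i => MvPolynomial.X i + MvPolynomial.C (p i)) u) = 0) →
      Finite (ConnectedComponents
        {x : Fin 3 → ℝ // ∑ i : Fin 3, x i ^ 2 = 1 ∧ MvPolynomial.eval x u ≠ 0}) ∧
      Nat.card (ConnectedComponents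
        {x : Fin 3 → ℝ // ∑ i : Fin 3, x i ^ 2 = 1 ∧ MvPolynomial.eval x u ≠ 0})
        ≤ 2 * ℓ * (ℓ - m + 1) := by
  rintro ℓ m hℓ hm u hu hh ⟨p, hp, hz⟩
  exact Run7.h506.high_order hu hh hℓ hm p hp hz

end Pool.Agent.Results.MP_f77893_an.HighOrderZero
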