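import Mathlib
import Pool.Agent.Run7.h506.OneSide

set_option autoImplicit false

namespace Pool.Agent.Results.MP_f77893_an.OneSided

/-- For every degree `ℓ ≥ 4 * 10 ^ 9` and every nonzero harmonic homogeneous polynomial `u` of
degree `ℓ` in three variables, the number of components of the set of points of the unit sphere
where `u` is positive plus the number of components of the set where `u` is at most zero is
finite and at most `5 / 12 * ℓ ^ 2`. -/
theorem result :
    ∀ ℓ : ℕ, 4000000000 ≤ ℓ → ∀ u : MvPolynomial (Fin 3) ℝ, u.IsHomogeneous ℓ →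
      ∑ i : Fin 3, MvPolynomial.pderiv i (MvPolynomial.pderiv i u) = 0 → u ≠ 0 →
      Finite (ConnectedComponents
        {x : Fin 3 → ℝ // ∑ i : Fin 3, x i ^ 2 = 1 ∧ 0 < MvPolynomial.eval x u}) ∧
      Finite (ConnectedComponents
        {x : Fin 3 → ℝ // ∑ i : Fin 3, x i ^ 2 = 1 ∧ MvPolynomial.eval x u ≤ 0}) ∧
      12 * (Nat.card (ConnectedComponents
          {x : Fin 3 → ℝ // ∑ i : Fin 3, x i ^ 2 = 1 ∧ 0 < MvPolynomial.eval x u}) +
        Nat.card (ConnectedComponents
          {x : Fin 3 → ℝ // ∑ i : Fin 3, x i ^ 2 = 1 ∧ MvPolynomial.eval x u ≤ 0}))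
        ≤ 5 * ℓ ^ 2 := by
  intro ℓ hℓ u hu hh hu0
  exact Run7.h506.one_side hu hh hu0 hℓ

end Pool.Agent.Results.MP_f77893_an.OneSided
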