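import Mathlib
import Pool.Agent.Run7.h506.SExplicit

set_option autoImplicit false

namespace Pool.Agent.Results.MP_f77893_an.OrderExcess

/-- The order of vanishing of `u` at the point `x`: the least `k` such that the homogeneous part
of degree `k` of the recentred polynomial `y ↦ u (x + y)` is nonzero. -/
noncomputable def order (u : MvPolynomial (Fin 3) ℝ) (x : Fin 3 → ℝ) : ℕ :=
  sInf {k : ℕ | MvPolynomial.homogeneousComponent k
    (MvPolynomial.aeval (fun i => MvPolynomial.X i + MvPolynomial.C (x i)) u) ≠ 0}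

/-- For every degree `ℓ ≥ 8` and every nonzero harmonic homogeneous polynomial `u` of degree `ℓ`
in three variables, the set `T` of singular zeros of `u` on the unit sphere is finite, and twice
the number of components of the nonvanishing set of `u` on the unit sphere is at most
`(ℓ + 1) ^ 2` plus the sum over `T` of the orders of vanishing diminished by one. -/
theorem result :
    ∀ ℓ : ℕ, 8 ≤ ℓ → ∀ u : MvPolynomial (Fin 3) ℝ, u.IsHomogeneous ℓ →
      ∑ i : Fin 3, MvPolynomial.pderiv i (MvPolynomial.pderiv i u) = 0 → u ≠ 0 →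
      ∃ T : Finset (Fin 3 → ℝ),
        (∀ x : Fin 3 → ℝ, x ∈ T ↔ (∑ i : Fin 3, x i ^ 2 = 1 ∧ MvPolynomial.eval x u = 0 ∧
          ∀ i : Fin 3, MvPolynomial.eval x (MvPolynomial.pderiv i u) = 0)) ∧
        Finite (ConnectedComponents
          {x : Fin 3 → ℝ // ∑ i : Fin 3, x i ^ 2 = 1 ∧ MvPolynomial.eval x u ≠ 0}) ∧
        2 * Nat.card (ConnectedComponents
          {x : Fin 3 → ℝ // ∑ i : Fin 3, x i ^ 2 = 1 ∧ MvPolynomial.eval x u ≠ 0})
          ≤ (ℓ + 1) ^ 2 + ∑ x ∈ T, (order u x - 1) := by
  intro ℓ hℓ u hu hh hu0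
  exact Run7.h506.explicit_bound hu hh hu0 hℓ

end Pool.Agent.Results.MP_f77893_an.OrderExcess
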